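import Mathlib

set_option autoImplicit false

open Set Filter Nat

namespace Pool.Agent.Results.MP_ba1c1e_lc.NotHomeo

/-- The filter `F` as a subspace of the Cantor set `2^ω`. -/
def chi (F : Filter ℕ) : Set (ℕ → Bool) := {x | {n | x n = true} ∈ F}

/-- The `F`-positive sets as a subspace of the Cantor set `2^ω`. -/
def pos (F : Filter ℕ) : Set (ℕ → Bool) := {x | ∀ Y ∈ F, ({n | x n = true} ∩ Y).Nonempty}

lemma zermelo {K : Type} (c : Set K → K) : ∃ S T : Set K, S ⊆ T ∧ ¬ T ⊆ S ∧ c S = c T := by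
  by_contra hn
  push Not at hn
  let r := @WellOrderingRel (Set K)
  obtain ⟨x, hx⟩ : ∃ x : Set K → K, ∀ a, x a = c {y | ∃ b, r b a ∧ x b = y} :=
    ⟨(IsWellFounded.wf (r := r)).fix fun a ih => c {y | ∃ b, ∃ h : r b a, ih b h = y}, fun a => by
      rw [WellFounded.fix_eq]; simp⟩
  have : ∀ a b, r a b → x a ≠ x b := fun a => by
    induction a using (IsWellFounded.wf (r := r)).induction with
    | h a ih =>
      intro b hab
      rw [hx a, hx b]
      exact hn _ _ (fun y ⟨d, h1, h2⟩ => ⟨d, _root_.trans h1 hab, h2⟩) fun h =>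
        let ⟨d, h1, h2⟩ := h ⟨a, hab, rfl⟩; ih d h1 a h1 h2
  refine Function.cantor_injective x fun a b h => ?_
  rcases trichotomous_of r a b with h' | h' | h'
  exacts [absurd h (this _ _ h'), h', absurd h.symm (this _ _ h')]

lemma cyl {U : Set (ℕ → Bool)} (hU : IsOpen U) {x : ℕ → Bool} (hx : x ∈ U) :
    ∃ k, ∀ y : ℕ → Bool, (∀ i < k, y i = x i) → y ∈ U := by
  obtain ⟨_, ⟨z, k, rfl⟩, h1, h2⟩ :=
    (PiNat.isTopologicalBasis_cylinders fun _ => Bool).exists_subset_of_mem_open hx hU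
  exact ⟨k, fun y hy => h2 fun i hi => (hy i hi).trans (h1 i hi)⟩

open Classical in
noncomputable def A (ξ : Set ℕ) : Set ℕ :=
  range fun n => Encodable.encode (n, (Finset.range n).filter (· ∈ ξ)) + 1

lemma A_inf (ξ : Set ℕ) : (A ξ).Infinite := infinite_range_of_injective fun _ _ h =>
  congrArg Prod.fst (Encodable.encode_injective (Nat.succ_injective h))

lemma A_ad {ξ η : Set ℕ} (h : ξ ≠ η) : (A ξ ∩ A η).Finite := by
  classical
  obtain ⟨k, hk⟩ := not_forall.1 fun h' => h (Set.ext h')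
  refine ((finite_Iic k).image fun n =>
    Encodable.encode (n, (Finset.range n).filter (· ∈ η)) + 1).subset ?_
  rintro _ ⟨⟨n, rfl⟩, m, hm⟩
  obtain ⟨rfl, h2⟩ := Prod.mk.inj (Encodable.encode_injective (Nat.succ_injective hm))
  refine ⟨m, mem_Iic.2 (not_lt.1 fun h => hk ?_), hm⟩
  simpa [h] using (Finset.ext_iff.1 h2 k).symm

def col (X : Set ℕ) : Set ℕ := {n | {r | pair n r ∈ X} ∈ hyperfilter ℕ}

lemma col_fin {X : Set ℕ} (h : Xᶜ.Finite) : col X = univ := eq_univ_of_forall fun n =>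
  mem_hyperfilter_of_finite_compl (h.preimage (f := pair n) fun _ _ _ _ h => (pair_eq_pair.1 h).2)

def F (S : Set (Set ℕ)) : Filter ℕ where
  sets := {X | 0 ∈ col X ∧ ∀ ξ ∉ S, (A ξ \ col X).Finite}
  univ_sets := by simp [col_fin]
  sets_of_superset {X Y} h hXY := ⟨mem_of_superset h.1 fun _ h => hXY h, fun ξ hξ =>
    (h.2 ξ hξ).subset fun _ h => ⟨h.1, fun h' => h.2 (mem_of_superset h' fun _ h => hXY h)⟩⟩
  inter_sets {X Y} h1 h2 := ⟨inter_mem h1.1 h2.1, fun ξ hξ => ((h1.2 ξ hξ).union (h2.2 ξ hξ)).subset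
    fun n h => by
      by_contra hn
      simp only [mem_union, mem_diff, h.1, true_and, not_or, not_not] at hn
      exact h.2 (inter_mem hn.1 hn.2)⟩

lemma nonmeager (S : Set (Set ℕ)) : ¬ IsMeagre (chi (F S)) := by
  classical
  intro h
  obtain ⟨T, h1, h2, h3, h4⟩ := mem_residual_iff.1 h
  obtain ⟨D, hD⟩ := (h3.insert univ).exists_eq_range (insert_nonempty _ _)
  have hD' : ∀ j, IsOpen (D j) ∧ Dense (D j) := fun j => by
    rcases hD.symm.subset (mem_range_self j) with h | h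
    exacts [h ▸ ⟨isOpen_univ, dense_univ⟩, ⟨h1 _ h, h2 _ h⟩]
  have step : ∀ m, ∃ m' > m, ∃ s : ℕ → Bool, ∀ x : ℕ → Bool, (∀ i, m ≤ i → i < m' → x i = s i) →
      ∀ j ≤ m, x ∈ D j := fun m => by
    let τ : (Fin m → Bool) → (ℕ → Bool) → ℕ → Bool := fun t x i =>
      if h : i < m then xor (x i) (t ⟨i, h⟩) else x i
    have hc : ∀ t, Continuous (τ t) := fun t => continuous_pi fun i => by
      by_cases h : i < m <;> simp only [τ, h, dite_true, dite_false]
      · exact (continuous_of_discreteTopology (f := fun b : Bool => b ^^ _)).comp (continuous_apply i)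
      · exact continuous_apply i
    have hi : ∀ t, Function.LeftInverse (τ t) (τ t) := fun t x => funext fun i => by
      by_cases h : i < m <;> simp [τ, h]
    obtain ⟨s, hs⟩ := (dense_iInter_of_isOpen (f := fun p : Fin (m + 1) × (Fin m → Bool) =>
      τ p.2 ⁻¹' D p.1) (fun p => (hD' _).1.preimage (hc _)) fun p =>
        (hD' _).2.preimage (IsOpenMap.of_inverse (hc _) (hi _) (hi _))).nonempty
    obtain ⟨k, hk⟩ := cyl (isOpen_iInter_of_finite fun p => (hD' _).1.preimage (hc _)) hs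
    refine ⟨m + k + 1, by omega, s, fun x hx j hj => ?_⟩
    have := mem_iInter.1 (hk (τ (fun i => xor (x i) (s i)) x) fun i hi => by
      by_cases h : i < m <;> simp [τ, h]
      exact hx i (by omega) (by omega)) (⟨j, by omega⟩, fun i => xor (x i) (s i))
    exact (congrArg (· ∈ D j) (hi (fun i => xor (x i) (s i)) x)).mp this
  choose nx hnx s hs using step
  obtain ⟨a, ha⟩ : ∃ a : ℕ → ℕ, ∀ k, a (k + 1) = nx (a k) :=
    ⟨fun k => Nat.rec 0 (fun _ a => nx a) k, fun _ => rfl⟩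
  have hm : StrictMono a := strictMono_nat_of_lt_succ fun k => ha k ▸ hnx _
  have uq : ∀ {i k l}, a k ≤ i ∧ i < a (k + 1) → a l ≤ i ∧ i < a (l + 1) → k = l := fun h h' => by
    have := hm.lt_iff_lt.1 (h.1.trans_lt h'.2)
    have := hm.lt_iff_lt.1 (h'.1.trans_lt h.2)
    omega
  let U := fun ξ => {i | ∃ k ∈ A ξ, a k ≤ i ∧ i < a (k + 1)}
  obtain ⟨ξ, hξ⟩ : ∃ ξ, ∀ n, n ∉ col (U ξ) := by
    by_contra hn
    push Not at hn
    choose n hn using hn
    refine Function.cantor_injective n fun ξ η h => by_contra fun hne => ?_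
    have : (U ξ ∩ U η).Finite := ((A_ad hne).biUnion fun k _ => finite_Iio (a (k + 1))).subset
      fun i ⟨⟨k, h1, h2⟩, l, h3, h4⟩ => mem_biUnion ⟨h1, uq h2 h4 ▸ h3⟩ h2.2
    exact (this.preimage (f := pair (n η)) fun _ _ _ _ h => (pair_eq_pair.1 h).2).notMem_hyperfilter
      (inter_mem (h ▸ hn ξ) (hn η))
  let x : ℕ → Bool := fun i => if h : i ∈ U ξ then s (a h.choose) i else true
  have hx : col {i | x i = true} = univ := eq_univ_of_forall fun n =>
    mem_of_superset (Ultrafilter.compl_mem_iff_notMem.2 (hξ n)) fun r hr => dif_neg hr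
  refine h4 (fun t ht => ?_) (show x ∈ chi (F S) from ⟨hx ▸ trivial, by simp [hx]⟩)
  obtain ⟨j, rfl⟩ := hD.subset (Or.inr ht)
  obtain ⟨k, hk, hjk⟩ := (A_inf ξ).exists_gt j
  refine hs (a k) x (fun i h1 h2 => ?_) j (hjk.le.trans hm.le_apply)
  have h : i ∈ U ξ := ⟨k, hk, h1, ha k ▸ h2⟩
  simp only [x, dif_pos h]
  rw [uq h.choose_spec.2 ⟨h1, ha k ▸ h2⟩]

theorem result : ∃ F : Filter ℕ, F.NeBot ∧ F ≤ cofinite ∧ ¬ IsMeagre (chi F) ∧
    (¬ ∃ f : pos F → chi F, Continuous f ∧ Function.Surjective f) ∧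
    IsEmpty ((chi F × pos F) ≃ₜ pos F) := by
  classical
  have hne : ∀ S, (F S).NeBot := fun S => ⟨fun h =>
    (finite_empty.notMem_hyperfilter (empty_mem_iff_bot.2 h).1 :)⟩
  suffices ∃ S, ¬ ∃ f : pos (F S) → chi (F S), Continuous f ∧ Function.Surjective f by
    obtain ⟨S, hS⟩ := this
    refine ⟨F S, hne S, fun X hX => ⟨col_fin hX ▸ trivial, by simp [col_fin hX]⟩, nonmeager S, hS,
      ⟨fun e => hS ⟨fun z => (e.symm z).1, by fun_prop, fun w =>
        ⟨e (w, ⟨fun _ => true, fun Y hY => ?_⟩), by simp⟩⟩⟩⟩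
    simpa using (hne S).nonempty_of_mem hY
  by_contra hn
  push Not at hn
  choose f hf hf' using hn
  let cut := fun (z : ℕ → Bool) k => (Finset.range k).filter fun i => z i = true
  let C := fun S => {p : ℕ × ℕ × Finset ℕ | ∀ z : pos (F S), cut z p.2.1 = p.2.2 → (f S z).1 p.1 = true}
  have hC : ∀ S z n, (f S z).1 n = true ↔ ∃ k, (n, k, cut z k) ∈ C S := fun S z n => by
    refine ⟨fun h => ?_, fun ⟨k, h⟩ => h z rfl⟩
    obtain ⟨O, hO, hO'⟩ := isOpen_induced_iff.1 ((isOpen_discrete {true}).preimage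
      ((continuous_apply n).comp (continuous_subtype_val.comp (hf S))))
    obtain ⟨k, hk⟩ := cyl hO (hO'.symm.subset h)
    refine ⟨k, fun y hy => hO'.subset (hk y fun i hi => ?_)⟩
    simpa [cut, hi] using Finset.ext_iff.1 hy i
  obtain ⟨S, T, h1, h2, h3⟩ := zermelo fun S => Encodable.encode '' C S
  replace h3 := image_injective.2 Encodable.encode_injective h3
  obtain ⟨ξ, hT, hS⟩ := not_subset.1 h2
  have hcol : col {i | decide ((unpair i).1 ∉ A ξ) = true} = (A ξ)ᶜ := by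
    ext n
    by_cases h : n ∈ A ξ <;> simp [col, h]
    exact univ_mem
  obtain ⟨z, hz⟩ := hf' T ⟨fun i => decide ((unpair i).1 ∉ A ξ), hcol ▸ by simp [A], fun η hη => by
    rw [hcol, diff_compl]; exact A_ad fun h => hη (h ▸ hT)⟩
  have := (f S ⟨z, fun Y hY => z.2 Y ⟨hY.1, fun η hη => hY.2 η fun h => hη (h1 h)⟩⟩).2.2 ξ hS
  simp only [hC, h3] at this
  simp only [← hC, hz, hcol, diff_compl, inter_self] at this
  exact A_inf ξ this

end Pool.Agent.Results.MP_ba1c1e_lc.NotHomeo
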